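import Mathlib

/-!
# MP_a45b15_gt: continuous images of monotonically Sokolov spaces
-/

set_option autoImplicit false

open Set Topology TopologicalSpace Filter

universe u

namespace Pool.Agent.Results.MP_a45b15_gt.ImageFails

/-- external networks -/
def ExternalNetwork {X : Type u} [TopologicalSpace X] (𝒩 : Set (Set X)) (A : Set X) : Prop :=
  ∀ a ∈ A, ∀ U : Set X, IsOpen U → a ∈ U → ∃ N ∈ 𝒩, a ∈ N ∧ N ⊆ U

/-- countable families of closed sets -/
def CountableClosed {X : Type u} [TopologicalSpace X] (ℱ : Set (Set X)) : Prop :=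
  ℱ.Countable ∧ ∀ F ∈ ℱ, IsClosed F

/-- an assignment of continuous retractions `r ℱ` and countable families `N ℱ` to the countable families `ℱ`
of closed sets such that `N ℱ` is an external network of the image of `r ℱ` and `r ℱ` maps every
member of `ℱ` into itself -/
def Assignment {X : Type u} [TopologicalSpace X] (r : Set (Set X) → X → X)
    (N : Set (Set X) → Set (Set X)) : Prop :=
  ∀ ℱ : Set (Set X), CountableClosed ℱ → Continuous (r ℱ) ∧ (∀ x, r ℱ (r ℱ x) = r ℱ x) ∧
    (N ℱ).Countable ∧ ExternalNetwork (N ℱ) (range (r ℱ)) ∧ ∀ F ∈ ℱ, r ℱ '' F ⊆ F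

/-- monotonically Sokolov spaces (the definition of the problem) -/
def MonotonicallySokolov (X : Type u) [TopologicalSpace X] : Prop :=
  ∃ (r : Set (Set X) → X → X) (N : Set (Set X) → Set (Set X)), Assignment r N ∧
    ∀ ℱ 𝒢, CountableClosed ℱ → CountableClosed 𝒢 → ℱ ⊆ 𝒢 → N ℱ ⊆ N 𝒢

/-- the stronger form in which the assignment `N` is `ω`-monotone, i.e. it also satisfies
`N (⋃ ℱ n) = ⋃ N (ℱ n)` for increasing sequences -/
def OmegaMonotonicallySokolov (X : Type u) [TopologicalSpace X] : Prop :=
  ∃ (r : Set (Set X) → X → X) (N : Set (Set X) → Set (Set X)), Assignment r N ∧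
    (∀ ℱ 𝒢, CountableClosed ℱ → CountableClosed 𝒢 → ℱ ⊆ 𝒢 → N ℱ ⊆ N 𝒢) ∧
    ∀ ℱ : ℕ → Set (Set X), (∀ n, CountableClosed (ℱ n)) → Monotone ℱ → N (⋃ n, ℱ n) = ⋃ n, N (ℱ n)

/-! ### the domain: a set with one non-isolated point whose neighbourhoods are cocountable -/

section domain

variable {T : Type u} (z : T)

/-- the set `T` with the topology in which all points except `z` are isolated and the neighbourhoods of `z` are
the cocountable sets containing `z` -/
def LL (_z : T) : Type u := T

instance : TopologicalSpace (LL z) where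
  IsOpen U := (show T from z) ∈ U → Uᶜ.Countable
  isOpen_univ := fun _ => by rw [compl_univ]; exact countable_empty
  isOpen_inter := by
    intro U V hU hV h
    rw [compl_inter]
    exact (hU h.1).union (hV h.2)
  isOpen_sUnion := by
    rintro S hS ⟨U, hU, hz⟩
    exact (hS U hU hz).mono (compl_subset_compl.mpr (subset_sUnion_of_mem hU))

/-- the non-isolated point -/
def ptz : LL z := z

theorem isOpen_LL {U : Set (LL z)} : IsOpen U ↔ (ptz z ∈ U → Uᶜ.Countable) := Iff.rfl

instance : T1Space (LL z) := by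
  refine ⟨fun x => ?_⟩
  rw [← isOpen_compl_iff, isOpen_LL]
  intro _
  rw [compl_compl]
  exact countable_singleton x

instance : NormalSpace (LL z) := by
  refine ⟨fun s t hs ht hd => ?_⟩
  by_cases hz : ptz z ∈ s
  · have hzt : ptz z ∉ t := fun h => Set.disjoint_left.mp hd hz h
    refine ⟨tᶜ, t, ht.isOpen_compl, ?_, fun x hx hxt => Set.disjoint_left.mp hd hx hxt, Subset.rfl, disjoint_compl_left⟩
    rw [isOpen_LL]
    exact fun h => absurd h hzt
  · refine ⟨s, sᶜ, ?_, hs.isOpen_compl, Subset.rfl, fun x hx hxs => Set.disjoint_left.mp hd hxs hx, disjoint_compl_right⟩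
    rw [isOpen_LL]
    exact fun h => absurd h hz

instance : T4Space (LL z) := ⟨⟩

/-- the countable set of the points which belong to a member of `ℱ` not containing `z` -/
def SS (ℱ : Set (Set (LL z))) : Set (LL z) := ⋃₀ {F ∈ ℱ | ptz z ∉ F}

open Classical in
/-- the retraction -/
noncomputable def rr (ℱ : Set (Set (LL z))) (x : LL z) : LL z := if x ∈ SS z ℱ then x else ptz z

/-- the network -/
def NN (ℱ : Set (Set (LL z))) : Set (Set (LL z)) := insert {ptz z} ((fun x => {x}) '' SS z ℱ)

theorem SS_countable {ℱ : Set (Set (LL z))} (h : CountableClosed ℱ) : (SS z ℱ).Countable := by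
  refine (h.1.mono (sep_subset _ _)).sUnion ?_
  rintro F ⟨hF, hz⟩
  have := (isOpen_LL z).mp (h.2 F hF).isOpen_compl hz
  rwa [compl_compl] at this

theorem assignment : Assignment (rr z) (NN z) := by
  intro ℱ hℱ
  refine ⟨?_, ?_, ?_, ?_, ?_⟩
  · rw [continuous_def]
    intro U hU
    rw [isOpen_LL]
    intro hz
    have hzU : ptz z ∈ U := by
      have h1 : rr z ℱ (ptz z) = ptz z := by unfold rr; split_ifs <;> rfl
      have h2 : rr z ℱ (ptz z) ∈ U := hz
      rwa [h1] at h2
    refine (SS_countable z hℱ).mono fun x hx => ?_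
    by_contra hxS
    apply hx
    change rr z ℱ x ∈ U
    unfold rr
    rw [if_neg hxS]
    exact hzU
  · intro x
    unfold rr
    by_cases hx : x ∈ SS z ℱ
    · simp [hx]
    · simp [hx]
  · exact ((SS_countable z hℱ).image _).insert _
  · rintro a ⟨x, rfl⟩ U hU haU
    refine ⟨{rr z ℱ x}, ?_, rfl, singleton_subset_iff.mpr haU⟩
    unfold rr
    split_ifs with h
    · exact Or.inr ⟨x, h, rfl⟩
    · exact Or.inl rfl
  · rintro F hF _ ⟨x, hx, rfl⟩
    unfold rr
    split_ifs with h
    · exact hx
    · by_contra hz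
      exact h ⟨F, ⟨hF, hz⟩, hx⟩

theorem NN_mono {ℱ 𝒢 : Set (Set (LL z))} (h : ℱ ⊆ 𝒢) : NN z ℱ ⊆ NN z 𝒢 := by
  apply insert_subset_insert
  apply image_mono
  apply sUnion_mono
  rintro F ⟨hF, hz⟩
  exact ⟨h hF, hz⟩

theorem monotonicallySokolov_LL : MonotonicallySokolov (LL z) :=
  ⟨rr z, NN z, assignment z, fun _ _ _ _ h => NN_mono z h⟩

theorem omega_LL : OmegaMonotonicallySokolov (LL z) := by
  refine ⟨rr z, NN z, assignment z, fun _ _ _ _ h => NN_mono z h, fun ℱ _ _ => ?_⟩
  apply Subset.antisymm
  · rintro A (hA | ⟨x, ⟨F, ⟨hF, hz⟩, hx⟩, rfl⟩)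
    · exact mem_iUnion.mpr ⟨0, Or.inl hA⟩
    · obtain ⟨n, hn⟩ := mem_iUnion.mp hF
      exact mem_iUnion.mpr ⟨n, Or.inr ⟨x, ⟨F, ⟨hn, hz⟩, hx⟩, rfl⟩⟩
  · exact iUnion_subset fun n => NN_mono z (subset_iUnion ℱ n)

end domain

/-! ### the range: a separable subspace of a Cantor cube with an uncountable discrete subspace -/

/-- nodes of the binary tree -/
abbrev Nd : Type := Σ n : ℕ, (Fin n → Bool)

/-- the restriction of a branch -/
def node (r : ℕ → Bool) (n : ℕ) : Nd := ⟨n, fun i => r i⟩

/-- the coordinates -/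
abbrev TT : Type := Nd ⊕ (ℕ → Bool)

open Classical in
/-- the points: nodes, branches and zero -/
noncomputable def phi : Nd ⊕ (ℕ → Bool) ⊕ Unit → (TT → Bool)
  | Sum.inl σ => fun t => match t with
    | Sum.inl τ => decide (σ = τ)
    | Sum.inr r => decide (σ = node r σ.1)
  | Sum.inr (Sum.inl r) => fun t => match t with
    | Sum.inl _ => false
    | Sum.inr r' => decide (r = r')
  | Sum.inr (Sum.inr _) => fun _ => false

/-- the space `Y` -/
abbrev YY : Type := range phi

noncomputable def yn (σ : Nd) : YY := ⟨phi (Sum.inl σ), _, rfl⟩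
noncomputable def yb (r : ℕ → Bool) : YY := ⟨phi (Sum.inr (Sum.inl r)), _, rfl⟩
noncomputable def yz : YY := ⟨phi (Sum.inr (Sum.inr ())), _, rfl⟩

theorem yb_inr_true (r r' : ℕ → Bool) : (yb r).1 (Sum.inr r') = true ↔ r = r' := by
  classical
  change decide (r = r') = true ↔ r = r'
  exact decide_eq_true_iff

theorem yb_inr_false (r r' : ℕ → Bool) : (yb r).1 (Sum.inr r') = false ↔ r ≠ r' := by
  classical
  change decide (r = r') = false ↔ r ≠ r'
  exact decide_eq_false_iff_not

theorem cases_YY (y : YY) : (∃ σ, y = yn σ) ∨ (∃ r, y = yb r) ∨ y = yz := by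
  obtain ⟨_, (σ | r | ⟨⟩), rfl⟩ := y
  · exact Or.inl ⟨σ, rfl⟩
  · exact Or.inr (Or.inl ⟨r, rfl⟩)
  · exact Or.inr (Or.inr rfl)

/-- neighbourhoods in `Y` depend on finitely many coordinates -/
theorem exists_finset {U : Set YY} (hU : IsOpen U) {y : YY} (hy : y ∈ U) :
    ∃ F : Finset TT, ∀ y' : YY, (∀ t ∈ F, y'.1 t = y.1 t) → y' ∈ U := by
  obtain ⟨V, hV, rfl⟩ := isOpen_induced_iff.mp hU
  obtain ⟨F, u, hu, huV⟩ := isOpen_pi_iff.mp hV y.1 hy
  refine ⟨F, fun y' hy' => huV fun t ht => ?_⟩
  rw [hy' t ht]
  exact (hu t ht).2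

/-- neighbourhoods of zero are cocountable -/
theorem cocountable {U : Set YY} (hU : IsOpen U) (hz : yz ∈ U) : Uᶜ.Countable := by
  obtain ⟨F, hF⟩ := exists_finset hU hz
  have h1 : Uᶜ ⊆ range yn ∪ yb '' {r | (Sum.inr r : TT) ∈ F} := by
    intro y hy
    rcases cases_YY y with ⟨σ, rfl⟩ | ⟨r, rfl⟩ | rfl
    · exact Or.inl ⟨σ, rfl⟩
    · right
      refine ⟨r, ?_, rfl⟩
      by_contra hr
      apply hy
      refine hF _ fun t ht => ?_
      rcases t with τ | r'
      · rfl
      · change (yb r).1 (Sum.inr r') = false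
        rw [yb_inr_false]
        rintro rfl
        exact hr ht
    · exact absurd hz hy
  refine Countable.mono h1 ((countable_range yn).union (Countable.image ?_ _))
  exact (Set.Finite.preimage (f := (Sum.inr : (ℕ → Bool) → TT)) Sum.inr_injective.injOn F.finite_toSet).countable

theorem infinite_cantor : Infinite (ℕ → Bool) := inferInstance

/-- the nodes are dense -/
theorem dense_nodes : Dense (range yn) := by
  have hb : ∀ r, yb r ∈ closure (range yn) := by
    intro r
    rw [mem_closure_iff]
    intro U hU hr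
    obtain ⟨F, hF⟩ := exists_finset hU hr
    -- for each coordinate, eventually the node agrees
    have hev : ∀ t ∈ F, ∀ᶠ n in atTop, (yn (node r n)).1 t = (yb r).1 t := by
      intro t _
      rcases t with τ | r'
      · filter_upwards [eventually_gt_atTop τ.1] with n hn
        change decide (node r n = τ) = false
        rw [decide_eq_false_iff_not]
        rintro rfl
        exact lt_irrefl _ hn
      · by_cases hrr : r = r'
        · subst hrr
          refine Eventually.of_forall fun n => ?_
          rw [(yb_inr_true r r).mpr rfl]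
          change @decide (node r n = node r n) _ = true
          exact decide_eq_true rfl
        · obtain ⟨k, hk⟩ : ∃ k, r k ≠ r' k := by
            by_contra hcon
            push Not at hcon
            exact hrr (funext hcon)
          filter_upwards [eventually_gt_atTop k] with n hn
          rw [(yb_inr_false r r').mpr hrr]
          change @decide (node r n = node r' n) _ = false
          rw [decide_eq_false_iff_not]
          intro h
          have h1 : (fun i : Fin n => r i) = (fun i : Fin n => r' i) := by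
            have := h
            simp only [node, Sigma.mk.injEq, heq_eq_eq, true_and] at this
            exact this
          exact hk (congrFun h1 ⟨k, hn⟩)
    have hall : ∀ᶠ n in atTop, ∀ t ∈ F, (yn (node r n)).1 t = (yb r).1 t :=
      (Filter.eventually_all_finset F).mpr hev
    obtain ⟨n, hn⟩ := hall.exists
    exact ⟨_, hF _ hn, node r n, rfl⟩
  have hz : yz ∈ closure (range yn) := by
    have h1 : yz ∈ closure (range yb) := by
      rw [mem_closure_iff]
      intro U hU hz
      obtain ⟨F, hF⟩ := exists_finset hU hz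
      have hfin : {r | (Sum.inr r : TT) ∈ F}.Finite :=
        Set.Finite.preimage (f := (Sum.inr : (ℕ → Bool) → TT)) Sum.inr_injective.injOn F.finite_toSet
      obtain ⟨r, hr⟩ := hfin.exists_notMem
      refine ⟨_, hF (yb r) fun t ht => ?_, r, rfl⟩
      rcases t with τ | r'
      · rfl
      · change (yb r).1 (Sum.inr r') = false
        rw [yb_inr_false]
        rintro rfl
        exact hr ht
    have h2 : closure (range yb) ⊆ closure (range yn) :=
      closure_minimal (by rintro _ ⟨r, rfl⟩; exact hb r) isClosed_closure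
    exact h2 h1
  intro y
  rcases cases_YY y with ⟨σ, rfl⟩ | ⟨r, rfl⟩ | rfl
  · exact subset_closure ⟨σ, rfl⟩
  · exact hb r
  · exact hz

theorem not_monotonicallySokolov : ¬ MonotonicallySokolov YY := by
  rintro ⟨r, N, h, -⟩
  let ℱ : Set (Set YY) := range fun σ : Nd => {yn σ}
  obtain ⟨hc, -, hN, hnet, hF⟩ := h ℱ ⟨countable_range _, by rintro _ ⟨σ, rfl⟩; exact isClosed_singleton⟩
  have hid : r ℱ = id := by
    refine Continuous.ext_on dense_nodes hc continuous_id ?_
    rintro _ ⟨σ, rfl⟩
    exact hF _ ⟨σ, rfl⟩ ⟨yn σ, rfl, rfl⟩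
  rw [hid, range_id] at hnet
  let U : (ℕ → Bool) → Set YY := fun s => {y | y.1 (Sum.inr s) = true}
  have hU : ∀ s, IsOpen (U s) := by
    intro s
    have hcs : Continuous (fun y : YY => y.1 (Sum.inr s)) := (continuous_apply (Sum.inr s : TT)).comp continuous_subtype_val
    exact (isOpen_discrete ({true} : Set Bool)).preimage hcs
  have hmem : ∀ s t, yb s ∈ U t ↔ s = t := yb_inr_true
  choose M hM1 hM2 hM3 using fun s => hnet (yb s) (mem_univ _) (U s) (hU s) ((hmem s s).mpr rfl)
  have hinj : Function.Injective M := by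
    intro s t hst
    have : yb s ∈ M t := hst ▸ hM2 s
    exact (hmem s t).mp (hM3 t this)
  have hcount : Countable (ℕ → Bool) := by
    have h1 : (range M).Countable := hN.mono (by rintro _ ⟨s, rfl⟩; exact hM1 s)
    exact countable_univ_iff.mp (Set.countable_of_injective_of_countable_image (s := univ) hinj.injOn
      (by rw [image_univ]; exact h1))
  have hlt : Cardinal.mk (ℕ → Bool) ≤ Cardinal.aleph0 := Cardinal.mk_le_aleph0_iff.mpr hcount
  have heq : Cardinal.mk (ℕ → Bool) = Cardinal.continuum := by
    simp only [Cardinal.mk_pi, Cardinal.mk_bool, Cardinal.prod_const, Cardinal.lift_id, Cardinal.mk_nat,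
      Cardinal.two_power_aleph0]
  rw [heq] at hlt
  exact absurd hlt (not_le.mpr Cardinal.aleph0_lt_continuum)

/-- **A continuous (even bijective) image of a monotonically Sokolov space need not be monotonically
Sokolov.**  The space `X` satisfies even the stronger form of the definition with an `ω`-monotone
assignment. -/
theorem result : ∃ (X Y : Type) (_ : TopologicalSpace X) (_ : TopologicalSpace Y) (f : X → Y),
    T35Space X ∧ T35Space Y ∧ Continuous f ∧ Function.Bijective f ∧
    MonotonicallySokolov X ∧ OmegaMonotonicallySokolov X ∧ ¬ MonotonicallySokolov Y := by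
  refine ⟨LL yz, YY, inferInstance, inferInstance, fun x => x, inferInstance, inferInstance, ?_,
    Function.bijective_id, monotonicallySokolov_LL yz, omega_LL yz, not_monotonicallySokolov⟩
  rw [continuous_def]
  intro U hU
  rw [isOpen_LL]
  intro hz
  exact cocountable hU hz

end Pool.Agent.Results.MP_a45b15_gt.ImageFails
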